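import Pool.Agent.H38R2.CG.N5a
import Pool.Agent.H38R2.CG.N3
import Pool.Agent.H38R2.CG.N5
import Pool.Agent.H38R2.CG.NF

/-!
# The inequality for all ideal classes: equidistribution in the class group
-/

set_option autoImplicit false

namespace Pool.Agent.H38R2.CG3

open Finset Filter NumberField Pool.Agent.H38R2.CG
open scoped Classical

open N5ah in
/-- Cauchy-Schwarz over the ideals with class in a given set. -/
theorem cs_set (hKF : P_KF) (K : Type) [Field K] [NumberField K] (D : ℕ) (hD : IsFund D)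
    (hdeg : Module.finrank ℚ K = 2) (hdisc : NumberField.discr K = (D : ℤ)) (e : Emb K D)
    (ι : Type) [Fintype ι] (A : ι → nonZeroDivisors (Ideal (𝓞 K))) (w : ι → ℝ)
    (hw : ∀ i, 0 ≤ w i) (H : Set (ClassGroup (𝓞 K))) (hH : ∀ i, ClassGroup.mk0 (A i) ∈ H)
    (N : ℕ) : (∑ i, w i * ((latSet e (A i : Ideal (𝓞 K)) 0 1 N).ncard : ℝ)) ^ 2 ≤
    (Nat.card {I : nonZeroDivisors (Ideal (𝓞 K)) //
      Ideal.absNorm (I : Ideal (𝓞 K)) ≤ N ∧ ClassGroup.mk0 I ∈ H} : ℝ) *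
    ∑ i, ∑ j, w i * w j * Vij e (A i : Ideal (𝓞 K)) (A j : Ideal (𝓞 K)) N := by
  have hA0 : ∀ i, (A i : Ideal (𝓞 K)) ≠ ⊥ := fun i => nonZeroDivisors.coe_ne_zero (A i)
  have hUfin : ∀ (i : ι) (J : nonZeroDivisors (Ideal (𝓞 K))),
      (U e (A i : Ideal (𝓞 K)) (J : Ideal (𝓞 K))).Finite := by
    intro i J
    refine (hKF K D hD hdeg hdisc e (A i) J (hA0 i) (nonZeroDivisors.coe_ne_zero J)).subset ?_
    rintro x ⟨h1, h2, h3⟩
    refine ⟨h1, ?_⟩
    show |Real.log (e.σ x / e.τ x)| ≤ 1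
    rw [abs_of_nonneg h2]
    exact h3.le
  -- the ideals
  have hTfin : {I : nonZeroDivisors (Ideal (𝓞 K)) |
      Ideal.absNorm (I : Ideal (𝓞 K)) ≤ N ∧ ClassGroup.mk0 I ∈ H}.Finite :=
    (Ideal.finite_setOfPred_absNorm_le₀ (S := 𝓞 K) N).subset fun I hI => hI.1
  set T : Finset (nonZeroDivisors (Ideal (𝓞 K))) := hTfin.toFinset with hT
  have hTmem : ∀ I, I ∈ T ↔ Ideal.absNorm (I : Ideal (𝓞 K)) ≤ N ∧ ClassGroup.mk0 I ∈ H := by
    intro I
    rw [hT, Set.Finite.mem_toFinset]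
    rfl
  have hTcard : (Nat.card {I : nonZeroDivisors (Ideal (𝓞 K)) //
      Ideal.absNorm (I : Ideal (𝓞 K)) ≤ N ∧ ClassGroup.mk0 I ∈ H}) = T.card := by
    rw [hT]
    exact Nat.card_eq_card_finite_toFinset hTfin
  let UF : ι → nonZeroDivisors (Ideal (𝓞 K)) → Finset K := fun i J => (hUfin i J).toFinset
  have hUF : ∀ i J x, x ∈ UF i J ↔ x ∈ U e (A i : Ideal (𝓞 K)) (J : Ideal (𝓞 K)) := by
    intro i J x
    exact Set.Finite.mem_toFinset _
  -- the lattice sets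
  have hlat : ∀ i, latSet e (A i : Ideal (𝓞 K)) 0 1 N ⊆ (T.biUnion (UF i) : Finset K) := by
    rintro i x ⟨h1, h2, h3, h4, h5, h6⟩
    obtain ⟨J, hJ, hxJ⟩ := exists_XAB e (hA0 i) h1 h2 h5
    have hJ' : J ∈ nonZeroDivisors (Ideal (𝓞 K)) := mem_nonZeroDivisors_of_ne_zero hJ
    rw [Finset.mem_coe, Finset.mem_biUnion]
    refine ⟨⟨J, hJ'⟩, ?_, ?_⟩
    · rw [hTmem]
      constructor
      · have h7 := norm_XAB e hxJ
        have h8 : (Ideal.absNorm J : ℝ) ≤ (N : ℝ) := by rw [h7]; exact h6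
        exact_mod_cast h8
      · have h9 : ClassGroup.mk0 (⟨J, hJ'⟩ : nonZeroDivisors (Ideal (𝓞 K))) =
            ClassGroup.mk0 (A i) := class_XAB e (J := ⟨J, hJ'⟩) hxJ
        rw [h9]
        exact hH i
    · rw [hUF]
      exact ⟨hxJ, h3, h4⟩
  have hlatfin : ∀ i, (latSet e (A i : Ideal (𝓞 K)) 0 1 N).Finite := fun i =>
    (Finset.finite_toSet _).subset (hlat i)
  have hlatcard : ∀ i, ((latSet e (A i : Ideal (𝓞 K)) 0 1 N).ncard : ℝ) ≤
      ∑ J ∈ T, ((UF i J).card : ℝ) := by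
    intro i
    have h1 : (latSet e (A i : Ideal (𝓞 K)) 0 1 N).ncard ≤ (T.biUnion (UF i)).card := by
      rw [← Set.ncard_coe_finset]
      exact Set.ncard_le_ncard (hlat i) (Finset.finite_toSet _)
    have h2 : (T.biUnion (UF i)).card ≤ ∑ J ∈ T, (UF i J).card := Finset.card_biUnion_le
    have h3 := h1.trans h2
    calc ((latSet e (A i : Ideal (𝓞 K)) 0 1 N).ncard : ℝ) ≤ ((∑ J ∈ T, (UF i J).card : ℕ) : ℝ) := by
          exact_mod_cast h3
      _ = ∑ J ∈ T, ((UF i J).card : ℝ) := by push_cast; rfl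
  -- the pair counts
  have hpair : ∀ i j, ∑ J ∈ T, ((UF i J).card : ℝ) * ((UF j J).card : ℝ) ≤
      Vij e (A i : Ideal (𝓞 K)) (A j : Ideal (𝓞 K)) N := by
    intro i j
    have hΔfin := hKF K D hD hdeg hdisc e (A i) (A j) (hA0 i) (hA0 j)
    set Δ : Finset K := hΔfin.toFinset with hΔ
    have hΔmem : ∀ x, x ∈ Δ ↔ x ∈ XAB e (A i : Ideal (𝓞 K)) (A j : Ideal (𝓞 K)) ∧
        |Real.log (e.σ x / e.τ x)| ≤ 1 := by
      intro x
      rw [hΔ, Set.Finite.mem_toFinset]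
      rfl
    let L : K → Set K := fun x => latSet e (A j : Ideal (𝓞 K))
      (max 0 (-(Real.log (e.σ x / e.τ x)))) (min 1 (1 - Real.log (e.σ x / e.τ x))) N
    have hLfin : ∀ x, (L x).Finite := by
      intro x
      refine (hlatfin j).subset ?_
      rintro y ⟨h1, h2, h3, h4, h5, h6⟩
      exact ⟨h1, h2, (le_max_left _ _).trans h3, h4.trans_le (min_le_left _ _), h5, h6⟩
    have hV : Vij e (A i : Ideal (𝓞 K)) (A j : Ideal (𝓞 K)) N = ∑ x ∈ Δ, ((L x).ncard : ℝ) := by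
      unfold Vij
      refine finsum_mem_eq_sum_of_subset _ ?_ ?_
      · rintro x ⟨hx1, hx2⟩
        rw [Finset.mem_coe, hΔmem]
        refine ⟨hx1, ?_⟩
        by_contra hcon
        apply hx2
        have hempty : L x = ∅ := by
          rw [Set.eq_empty_iff_forall_notMem]
          rintro y ⟨h1, h2, h3, h4, h5, h6⟩
          have h7 : 0 ≤ Real.log (e.σ y / e.τ y) := (le_max_left _ _).trans h3
          have h8 : -(Real.log (e.σ x / e.τ x)) ≤ Real.log (e.σ y / e.τ y) :=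
            (le_max_right _ _).trans h3
          have h9 : Real.log (e.σ y / e.τ y) < 1 := h4.trans_le (min_le_left _ _)
          have h10 : Real.log (e.σ y / e.τ y) < 1 - Real.log (e.σ x / e.τ x) :=
            h4.trans_le (min_le_right _ _)
          apply hcon
          rw [abs_le]
          constructor <;> linarith
        show ((L x).ncard : ℝ) = 0
        rw [hempty, Set.ncard_empty, Nat.cast_zero]
      · intro x hx
        exact ((hΔmem x).1 (Finset.mem_coe.1 hx)).1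
    rw [hV]
    let LF : K → Finset K := fun x => (hLfin x).toFinset
    have hLF : ∀ x, (LF x).card = (L x).ncard := fun x =>
      (Set.ncard_eq_toFinset_card _ (hLfin x)).symm
    have hcard : (T.sigma fun J => UF i J ×ˢ UF j J).card ≤ (Δ.sigma LF).card := by
      refine Finset.card_le_card_of_injOn
        (fun p => (⟨p.2.1 / p.2.2, p.2.2⟩ : Σ _ : K, K)) ?_ ?_
      · rintro ⟨J, x, y⟩ hp
        rw [Finset.mem_coe, Finset.mem_sigma] at hp
        obtain ⟨hJ, hxy⟩ := hp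
        simp only [Finset.mem_product, hUF] at hxy
        obtain ⟨hx, hy⟩ := hxy
        rw [hTmem] at hJ
        have hld := log_div e hx.1.1 hx.1.2.1 hy.1.1 hy.1.2.1
        have hxd := XAB_div e hx.1 hy.1
        simp only at hJ
        rw [Finset.mem_coe, Finset.mem_sigma]
        constructor
        · show x / y ∈ Δ
          rw [hΔmem]
          refine ⟨hxd, ?_⟩
          rw [hld, abs_le]
          have h1 := hx.2.1
          have h2 := hx.2.2
          have h3 := hy.2.1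
          have h4 := hy.2.2
          constructor <;> linarith
        · show y ∈ LF (x / y)
          rw [Set.Finite.mem_toFinset]
          have h1 := hx.2.1
          have h2 := hx.2.2
          have h3 := hy.2.1
          have h4 := hy.2.2
          refine ⟨hy.1.1, hy.1.2.1, ?_, ?_, mem_inv_of_XAB e (hA0 j) hy.1, ?_⟩
          · rw [hld]
            refine max_le h3 ?_
            linarith
          · rw [hld]
            refine lt_min h4 ?_
            linarith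
          · rw [← norm_XAB e hy.1]
            exact_mod_cast hJ.1
      · rintro ⟨J, x, y⟩ hp ⟨J', x', y'⟩ hp' heq
        rw [Finset.mem_coe, Finset.mem_sigma] at hp hp'
        obtain ⟨hJ, hxy⟩ := hp
        obtain ⟨hJ', hxy'⟩ := hp'
        simp only [Finset.mem_product, hUF] at hxy hxy'
        simp only [Sigma.mk.injEq, heq_eq_eq] at heq
        obtain ⟨h1, h2⟩ := heq
        subst h2
        have hy0 := ne_zero_of_pos e hxy.2.1.1
        have h3 : x = x' := by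
          have := congrArg (fun z => z * y) h1
          simpa [div_mul_cancel₀ _ hy0] using this
        subst h3
        have h4 : (J : Ideal (𝓞 K)) = (J' : Ideal (𝓞 K)) := XAB_unique e hxy.2.1 hxy'.2.1
        have h5 : J = J' := Subtype.ext h4
        subst h5
        rfl
    rw [Finset.card_sigma, Finset.card_sigma] at hcard
    simp only [Finset.card_product] at hcard
    calc ∑ J ∈ T, ((UF i J).card : ℝ) * ((UF j J).card : ℝ)
        = ((∑ J ∈ T, (UF i J).card * (UF j J).card : ℕ) : ℝ) := by push_cast; rfl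
      _ ≤ ((∑ x ∈ Δ, (LF x).card : ℕ) : ℝ) := by exact_mod_cast hcard
      _ = ∑ x ∈ Δ, ((L x).ncard : ℝ) := by
          push_cast
          exact Finset.sum_congr rfl fun x _ => by rw [hLF]
  -- Cauchy-Schwarz
  have hsum0 : 0 ≤ ∑ i, w i * ((latSet e (A i : Ideal (𝓞 K)) 0 1 N).ncard : ℝ) :=
    Finset.sum_nonneg fun i _ => mul_nonneg (hw i) (Nat.cast_nonneg _)
  have hstep1 : ∑ i, w i * ((latSet e (A i : Ideal (𝓞 K)) 0 1 N).ncard : ℝ) ≤
      ∑ J ∈ T, ∑ i, w i * ((UF i J).card : ℝ) := by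
    rw [Finset.sum_comm]
    refine Finset.sum_le_sum fun i _ => ?_
    rw [← Finset.mul_sum]
    exact mul_le_mul_of_nonneg_left (hlatcard i) (hw i)
  calc (∑ i, w i * ((latSet e (A i : Ideal (𝓞 K)) 0 1 N).ncard : ℝ)) ^ 2
      ≤ (∑ J ∈ T, ∑ i, w i * ((UF i J).card : ℝ)) ^ 2 := pow_le_pow_left₀ hsum0 hstep1 2
    _ ≤ (T.card : ℝ) * ∑ J ∈ T, (∑ i, w i * ((UF i J).card : ℝ)) ^ 2 := sq_sum_le_card_mul_sum_sq
    _ = (T.card : ℝ) * ∑ i, ∑ j, w i * w j *
          ∑ J ∈ T, ((UF i J).card : ℝ) * ((UF j J).card : ℝ) := by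
        congr 1
        have h1 : ∀ J, (∑ i, w i * ((UF i J).card : ℝ)) ^ 2 =
            ∑ i, ∑ j, w i * w j * (((UF i J).card : ℝ) * ((UF j J).card : ℝ)) := by
          intro J
          rw [sq, Finset.sum_mul_sum]
          refine Finset.sum_congr rfl fun i _ => Finset.sum_congr rfl fun j _ => ?_
          ring
        rw [Finset.sum_congr rfl fun J _ => h1 J, Finset.sum_comm]
        refine Finset.sum_congr rfl fun i _ => ?_
        rw [Finset.sum_comm]
        refine Finset.sum_congr rfl fun j _ => ?_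
        rw [Finset.mul_sum]
    _ ≤ (T.card : ℝ) * ∑ i, ∑ j, w i * w j *
          Vij e (A i : Ideal (𝓞 K)) (A j : Ideal (𝓞 K)) N := by
        refine mul_le_mul_of_nonneg_left ?_ (Nat.cast_nonneg _)
        refine Finset.sum_le_sum fun i _ => Finset.sum_le_sum fun j _ => ?_
        exact mul_le_mul_of_nonneg_left (hpair i j) (mul_nonneg (hw i) (hw j))
    _ = _ := by rw [hTcard]

/-- the limit of the inequality, for a set of classes -/
theorem lim_set (h4 : P_N4) (hKF : P_KF) (h5b : P_N5b) (K : Type) [Field K] [NumberField K] (D : ℕ)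
    (hD : IsFund D) (hK : Module.finrank ℚ K = 2) (hdisc : NumberField.discr K = (D : ℤ))
    (e : Emb K D) (ι : Type) [Fintype ι] (A : ι → nonZeroDivisors (Ideal (𝓞 K))) (w : ι → ℝ)
    (hw : ∀ i, 0 ≤ w i) (H : Set (ClassGroup (𝓞 K))) (L : ℝ) (hAH : ∀ i, ClassGroup.mk0 (A i) ∈ H)
    (hL : Tendsto (fun N : ℕ => (Nat.card {I : nonZeroDivisors (Ideal (𝓞 K)) //
      Ideal.absNorm (I : Ideal (𝓞 K)) ≤ N ∧ ClassGroup.mk0 I ∈ H} : ℝ) / N) atTop (nhds L)) :
    (∑ i, w i) ^ 2 ≤ 2 * √(D : ℝ) * L *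
      ∑ i, ∑ j, w i * w j * KAB e (A i : Ideal (𝓞 K)) (A j : Ideal (𝓞 K)) := by
  have hD1 : 1 < D := hD.1
  have hDr : (0 : ℝ) < D := by exact_mod_cast (by omega : 0 < D)
  have hsq : 0 < √(D : ℝ) := Real.sqrt_pos.mpr hDr
  have hss : √(D : ℝ) * √(D : ℝ) = D := Real.mul_self_sqrt hDr.le
  have hA0 : ∀ i, (A i : Ideal (𝓞 K)) ≠ ⊥ := fun i => nonZeroDivisors.coe_ne_zero (A i)
  set Sg : ℝ := ∑ i, ∑ j, w i * w j * KAB e (A i : Ideal (𝓞 K)) (A j : Ideal (𝓞 K)) with hSg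
  have hl1 : Tendsto (fun N : ℕ => (∑ i, w i *
      (((latSet e (A i : Ideal (𝓞 K)) 0 1 N).ncard : ℝ) / N)) ^ 2) atTop
      (nhds ((∑ i, w i * ((1 - 0) / (2 * √(D : ℝ)))) ^ 2)) := by
    refine Tendsto.pow ?_ 2
    refine tendsto_finsetSum _ fun i _ => ?_
    exact ((h4 K D hD hK hdisc e (A i) (hA0 i) 0 1 one_pos).2).const_mul (w i)
  have hl2 : Tendsto (fun N : ℕ => ((Nat.card {I : nonZeroDivisors (Ideal (𝓞 K)) //
      Ideal.absNorm (I : Ideal (𝓞 K)) ≤ N ∧ ClassGroup.mk0 I ∈ H} : ℝ) / N) *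
      ∑ i, ∑ j, w i * w j * (Vij e (A i : Ideal (𝓞 K)) (A j : Ideal (𝓞 K)) N / N)) atTop
      (nhds (L * ∑ i, ∑ j, w i * w j *
        (KAB e (A i : Ideal (𝓞 K)) (A j : Ideal (𝓞 K)) / (2 * √(D : ℝ))))) := by
    refine hL.mul ?_
    refine tendsto_finsetSum _ fun i _ => tendsto_finsetSum _ fun j _ => ?_
    exact (h5b K D hD hK hdisc e (A i) (A j) (hA0 i) (hA0 j)).const_mul (w i * w j)
  have hle := le_of_tendsto_of_tendsto' hl1 hl2 (by
    intro N
    have h := cs_set hKF K D hD hK hdisc e ι A w hw H hAH N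
    have e1 : (∑ i, w i * (((latSet e (A i : Ideal (𝓞 K)) 0 1 N).ncard : ℝ) / N)) ^ 2 =
        (∑ i, w i * ((latSet e (A i : Ideal (𝓞 K)) 0 1 N).ncard : ℝ)) ^ 2 / (N : ℝ) ^ 2 := by
      rw [← div_pow, Finset.sum_div]
      congr 1
      refine Finset.sum_congr rfl fun i _ => ?_
      ring
    have e2 : ((Nat.card {I : nonZeroDivisors (Ideal (𝓞 K)) //
        Ideal.absNorm (I : Ideal (𝓞 K)) ≤ N ∧ ClassGroup.mk0 I ∈ H} : ℝ) / N) *
        ∑ i, ∑ j, w i * w j * (Vij e (A i : Ideal (𝓞 K)) (A j : Ideal (𝓞 K)) N / N) =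
        ((Nat.card {I : nonZeroDivisors (Ideal (𝓞 K)) //
        Ideal.absNorm (I : Ideal (𝓞 K)) ≤ N ∧ ClassGroup.mk0 I ∈ H} : ℝ) *
        ∑ i, ∑ j, w i * w j * Vij e (A i : Ideal (𝓞 K)) (A j : Ideal (𝓞 K)) N) /
          (N : ℝ) ^ 2 := by
      have e3 : ∑ i, ∑ j, w i * w j * (Vij e (A i : Ideal (𝓞 K)) (A j : Ideal (𝓞 K)) N / N) =
          (∑ i, ∑ j, w i * w j * Vij e (A i : Ideal (𝓞 K)) (A j : Ideal (𝓞 K)) N) / N := by
        rw [Finset.sum_div]
        refine Finset.sum_congr rfl fun i _ => ?_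
        rw [Finset.sum_div]
        refine Finset.sum_congr rfl fun j _ => ?_
        ring
      rw [e3]
      ring
    rw [e1, e2]
    gcongr)
  have e4 : (∑ i, w i * ((1 - 0) / (2 * √(D : ℝ)))) ^ 2 = (∑ i, w i) ^ 2 / (4 * D) := by
    rw [← Finset.sum_mul, mul_pow]
    have : (((1 : ℝ) - 0) / (2 * √(D : ℝ))) ^ 2 = 1 / (4 * D) := by
      rw [div_pow, mul_pow, Real.sq_sqrt hDr.le]
      norm_num
    rw [this]
    ring
  have e5 : ∑ i, ∑ j, w i * w j *
        (KAB e (A i : Ideal (𝓞 K)) (A j : Ideal (𝓞 K)) / (2 * √(D : ℝ))) =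
        Sg / (2 * √(D : ℝ)) := by
    rw [hSg, Finset.sum_div]
    refine Finset.sum_congr rfl fun i _ => ?_
    rw [Finset.sum_div]
    refine Finset.sum_congr rfl fun j _ => ?_
    ring
  rw [e4, e5] at hle
  rw [div_le_iff₀ (by positivity)] at hle
  have e6 : L * (Sg / (2 * √(D : ℝ))) * (4 * D) = 2 * √(D : ℝ) * L * Sg := by
    have : (4 * (D : ℝ)) = 4 * (√(D : ℝ) * √(D : ℝ)) := by rw [hss]
    rw [this]
    field_simp
    ring
  rw [e6] at hle
  exact hle

/-- number of ideals in a class -/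
theorem cls_lim (hN3 : P_N3) (K : Type) [Field K] [NumberField K] (D : ℕ)
    (hD : IsFund D) (hK : Module.finrank ℚ K = 2) (hdisc : NumberField.discr K = (D : ℤ))
    (C : ClassGroup (𝓞 K)) :
    Tendsto (fun N : ℕ => (Nat.card {I : nonZeroDivisors (Ideal (𝓞 K)) //
      Ideal.absNorm (I : Ideal (𝓞 K)) ≤ N ∧ ClassGroup.mk0 I ∈ ({C} : Set (ClassGroup (𝓞 K)))} : ℝ)
        / N) atTop (nhds (Lone D / Nat.card (ClassGroup (𝓞 K)))) := by
  obtain ⟨-, hall, -⟩ := hN3 K D hD hK hdisc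
  have htop := N3h.lim_H K ⊤
  have htop' : Tendsto (fun N : ℕ => (Nat.card {I : nonZeroDivisors (Ideal (𝓞 K)) //
      Ideal.absNorm (I : Ideal (𝓞 K)) ≤ N} : ℝ) / N) atTop
      (nhds ((Nat.card (⊤ : Subgroup (ClassGroup (𝓞 K))) : ℝ) * N3h.kap K)) := by
    refine htop.congr ?_
    intro N
    simp only [Subgroup.mem_top, and_true]
  have heq : Lone D = (Nat.card (⊤ : Subgroup (ClassGroup (𝓞 K))) : ℝ) * N3h.kap K :=
    tendsto_nhds_unique hall htop'
  rw [Subgroup.card_top] at heq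
  have hpos : (0 : ℝ) < Nat.card (ClassGroup (𝓞 K)) := by
    exact_mod_cast Nat.card_pos
  have h2 : Lone D / Nat.card (ClassGroup (𝓞 K)) = N3h.kap K := by
    rw [heq]
    field_simp
  rw [h2]
  exact N3h.cls K C

/-- the inequality summed over the classes -/
theorem ineq_classes (hN3 : P_N3) (h4 : P_N4) (hKF : P_KF) (h5b : P_N5b) (K : Type) [Field K]
    [NumberField K] (D : ℕ)
    (hD : IsFund D) (hK : Module.finrank ℚ K = 2) (hdisc : NumberField.discr K = (D : ℤ))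
    (e : Emb K D) (ι : Type) [Fintype ι] (A : ι → nonZeroDivisors (Ideal (𝓞 K))) (w : ι → ℝ)
    (hw : ∀ i, 0 ≤ w i) :
    (Nat.card (ClassGroup (𝓞 K)) : ℝ) * ∑ C : ClassGroup (𝓞 K),
      (∑ i ∈ Finset.univ.filter (fun i => ClassGroup.mk0 (A i) = C), w i) ^ 2 ≤
      2 * √(D : ℝ) * Lone D *
      ∑ i, ∑ j, w i * w j * KAB e (A i : Ideal (𝓞 K)) (A j : Ideal (𝓞 K)) := by
  have hL0 := (hN3 K D hD hK hdisc).1
  have hpos : (0 : ℝ) < Nat.card (ClassGroup (𝓞 K)) := by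
    exact_mod_cast Nat.card_pos
  have hKn : ∀ i j, 0 ≤ w i * w j * KAB e (A i : Ideal (𝓞 K)) (A j : Ideal (𝓞 K)) := fun i j =>
    mul_nonneg (mul_nonneg (hw i) (hw j)) (N5h.KAB_nonneg e _ _)
  have h1 : ∀ C : ClassGroup (𝓞 K),
      (∑ i ∈ Finset.univ.filter (fun i => ClassGroup.mk0 (A i) = C), w i) ^ 2 ≤
      2 * √(D : ℝ) * (Lone D / Nat.card (ClassGroup (𝓞 K))) *
      ∑ i ∈ Finset.univ.filter (fun i => ClassGroup.mk0 (A i) = C),
        ∑ j, w i * w j * KAB e (A i : Ideal (𝓞 K)) (A j : Ideal (𝓞 K)) := by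
    intro C
    have h := lim_set h4 hKF h5b K D hD hK hdisc e {i : ι // ClassGroup.mk0 (A i) = C}
      (fun i => A i.1) (fun i => w i.1) (fun i => hw i.1) {C}
      (Lone D / Nat.card (ClassGroup (𝓞 K))) (fun i => i.2) (cls_lim hN3 K D hD hK hdisc C)
    have e1 : ∑ i : {i : ι // ClassGroup.mk0 (A i) = C}, w i.1 =
        ∑ i ∈ Finset.univ.filter (fun i => ClassGroup.mk0 (A i) = C), w i :=
      (Finset.sum_subtype (Finset.univ.filter (fun i => ClassGroup.mk0 (A i) = C))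
        (p := fun i => ClassGroup.mk0 (A i) = C) (by intro x; simp) w).symm
    have e2 : ∑ i : {i : ι // ClassGroup.mk0 (A i) = C}, ∑ j : {i : ι // ClassGroup.mk0 (A i) = C},
        w i.1 * w j.1 * KAB e (A i.1 : Ideal (𝓞 K)) (A j.1 : Ideal (𝓞 K)) ≤
        ∑ i ∈ Finset.univ.filter (fun i => ClassGroup.mk0 (A i) = C),
        ∑ j, w i * w j * KAB e (A i : Ideal (𝓞 K)) (A j : Ideal (𝓞 K)) := by
      rw [Finset.sum_subtype (Finset.univ.filter (fun i => ClassGroup.mk0 (A i) = C))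
          (p := fun i => ClassGroup.mk0 (A i) = C) (by intro x; simp)
          (fun i => ∑ j, w i * w j * KAB e (A i : Ideal (𝓞 K)) (A j : Ideal (𝓞 K)))]
      refine Finset.sum_le_sum fun i _ => ?_
      rw [← Finset.sum_subtype (Finset.univ.filter (fun j => ClassGroup.mk0 (A j) = C))
          (p := fun j => ClassGroup.mk0 (A j) = C) (by intro x; simp)
          (fun j => w i.1 * w j * KAB e (A i.1 : Ideal (𝓞 K)) (A j : Ideal (𝓞 K)))]
      exact Finset.sum_le_sum_of_subset_of_nonneg (Finset.filter_subset _ _)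
        (fun j _ _ => hKn i.1 j)
    rw [e1] at h
    refine h.trans ?_
    exact mul_le_mul_of_nonneg_left e2 (by positivity)
  calc (Nat.card (ClassGroup (𝓞 K)) : ℝ) * ∑ C : ClassGroup (𝓞 K),
      (∑ i ∈ Finset.univ.filter (fun i => ClassGroup.mk0 (A i) = C), w i) ^ 2
      ≤ (Nat.card (ClassGroup (𝓞 K)) : ℝ) * ∑ C : ClassGroup (𝓞 K),
        (2 * √(D : ℝ) * (Lone D / Nat.card (ClassGroup (𝓞 K))) *
        ∑ i ∈ Finset.univ.filter (fun i => ClassGroup.mk0 (A i) = C),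
        ∑ j, w i * w j * KAB e (A i : Ideal (𝓞 K)) (A j : Ideal (𝓞 K))) :=
        mul_le_mul_of_nonneg_left (Finset.sum_le_sum fun C _ => h1 C) hpos.le
    _ = 2 * √(D : ℝ) * Lone D * ∑ C : ClassGroup (𝓞 K),
        ∑ i ∈ Finset.univ.filter (fun i => ClassGroup.mk0 (A i) = C),
        ∑ j, w i * w j * KAB e (A i : Ideal (𝓞 K)) (A j : Ideal (𝓞 K)) := by
        rw [← Finset.mul_sum]
        field_simp
    _ = _ := by
        congr 1
        exact Finset.sum_fiberwise Finset.univ (fun i => ClassGroup.mk0 (A i))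
          (fun i => ∑ j, w i * w j * KAB e (A i : Ideal (𝓞 K)) (A j : Ideal (𝓞 K)))

/-- weighted number of ideals of the family in a class -/
noncomputable def MC (K : Type) [Field K] [NumberField K] (S : Finset (Finset ℕ))
    (f : Finset ℕ → ℝ) (C : ClassGroup (𝓞 K)) : ℝ :=
  ∑ s ∈ S, f s * (Nat.card {I : nonZeroDivisors (Ideal (𝓞 K)) //
    Ideal.absNorm (I : Ideal (𝓞 K)) = prodS s ∧ ClassGroup.mk0 I = C} : ℝ)

open NFh in
theorem nf_classes (hN0 : P_N0) (hN1 : P_N1) (hN3 : P_N3) (h4 : P_N4) (hKF : P_KF)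
    (h5b : P_N5b) (hN6 : P_N6) (K : Type) [Field K] [NumberField K] (D : ℕ)
    (hD : IsFund D) (h2 : Module.finrank ℚ K = 2) (hK : NumberField.discr K = (D : ℤ))
    (S : Finset (Finset ℕ)) (f : Finset ℕ → ℝ)
    (hf : ∀ s ∈ S, 0 ≤ f s ∧ ∀ p ∈ s, p.Prime ∧ p ≠ 2) :
    (Nat.card (ClassGroup (𝓞 K)) : ℝ) * ∑ C : ClassGroup (𝓞 K), (MC K S f C) ^ 2 ≤
      2 * √(D : ℝ) * Lone D * SD D S f ∧
    ∑ C : ClassGroup (𝓞 K), MC K S f C = MD D S f := by
  obtain ⟨e⟩ := hN0 K D hD h2 hK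
  have hL : 0 ≤ Lone D := (hN3 K D hD h2 hK).1
  let V : Finset ℕ → Finset (Ideal (𝓞 K)) := fun s => U K (prodS s)
  let ι : Type := Σ s : {s // s ∈ S}, {A // A ∈ V s}
  have hne0 : ∀ s ∈ S, ∀ A ∈ V s, A ∈ nonZeroDivisors (Ideal (𝓞 K)) := by
    intro s hs A hA
    rw [← Ideal.absNorm_ne_zero_iff_mem_nonZeroDivisors, mem_U.mp hA]
    exact (prodS_pos fun p hp => ((hf s hs).2 p hp).1).ne'
  have hne : ∀ i : ι, (i.2 : Ideal (𝓞 K)) ∈ nonZeroDivisors (Ideal (𝓞 K)) := fun i =>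
    hne0 i.1 i.1.2 i.2 i.2.2
  let A : ι → nonZeroDivisors (Ideal (𝓞 K)) := fun i => ⟨i.2, hne i⟩
  let w : ι → ℝ := fun i => f i.1
  have hw : ∀ i, 0 ≤ w i := fun i => (hf i.1 i.1.2).1
  have hdouble : ∑ i, ∑ j, w i * w j * KAB e (A i : Ideal (𝓞 K)) (A j : Ideal (𝓞 K)) ≤
      SD D S f := by
    have h : ∑ i, ∑ j, w i * w j * KAB e (A i : Ideal (𝓞 K)) (A j : Ideal (𝓞 K)) =
        ∑ s ∈ S, ∑ X ∈ V s, ∑ t ∈ S, ∑ Y ∈ V t, f s * f t * KAB e X Y := by
      rw [← sum_sig S V (fun s X => ∑ t ∈ S, ∑ Y ∈ V t, f s * f t * KAB e X Y)]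
      refine Finset.sum_congr rfl fun i _ => ?_
      exact sum_sig S V (fun t Y => f i.1 * f t * KAB e (i.2 : Ideal (𝓞 K)) Y)
    rw [h]
    unfold SD
    refine Finset.sum_le_sum fun s hs => ?_
    rw [Finset.sum_comm]
    refine Finset.sum_le_sum fun t ht => ?_
    have h3 : ∑ X ∈ V s, ∑ Y ∈ V t, f s * f t * KAB e X Y =
        f s * f t * ∑ X ∈ V s, ∑ Y ∈ V t, KAB e X Y := by
      rw [Finset.mul_sum]
      refine Finset.sum_congr rfl fun X _ => ?_
      rw [Finset.mul_sum]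
    rw [h3]
    have h4 := hN6 K D hD h2 hK e s t (hf s hs).2 (hf t ht).2 (V s) (V t)
      (fun X hX => mem_U.mp hX) (fun Y hY => mem_U.mp hY)
    have h5 : 0 ≤ f s * f t := mul_nonneg (hf s hs).1 (hf t ht).1
    calc f s * f t * ∑ X ∈ V s, ∑ Y ∈ V t, KAB e X Y
        ≤ f s * f t * (2 ^ ((s ∩ t).card) * Rsum D (prodS s * prodS t)) :=
          mul_le_mul_of_nonneg_left h4 h5
      _ = _ := by ring
  have hc : 0 ≤ 2 * √(D : ℝ) * Lone D := by positivity
  have hMC : ∀ C : ClassGroup (𝓞 K),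
      ∑ i ∈ Finset.univ.filter (fun i => ClassGroup.mk0 (A i) = C), w i = MC K S f C := by
    intro C
    rw [Finset.sum_filter]
    let F : Finset ℕ → Ideal (𝓞 K) → ℝ := fun s I =>
      if ∃ h : I ∈ nonZeroDivisors (Ideal (𝓞 K)), ClassGroup.mk0 ⟨I, h⟩ = C then f s else 0
    have e1 : ∑ i : ι, (if ClassGroup.mk0 (A i) = C then w i else 0) =
        ∑ i : (Σ s : {s // s ∈ S}, {A // A ∈ V s}), F i.1 i.2 := by
      refine Finset.sum_congr rfl fun i _ => ?_
      simp only [F]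
      by_cases h : ClassGroup.mk0 (A i) = C
      · rw [if_pos h, if_pos ⟨hne i, h⟩]
      · rw [if_neg h, if_neg]
        rintro ⟨h', h''⟩
        exact h h''
    rw [e1, sum_sig S V F]
    unfold MC
    refine Finset.sum_congr rfl fun s hs => ?_
    simp only [F]
    rw [← Finset.sum_filter, Finset.sum_const, nsmul_eq_mul, mul_comm]
    congr 1
    have hcard : Nat.card {I : nonZeroDivisors (Ideal (𝓞 K)) //
        Ideal.absNorm (I : Ideal (𝓞 K)) = prodS s ∧ ClassGroup.mk0 I = C} =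
        Nat.card {I : Ideal (𝓞 K) // I ∈ (V s).filter (fun I =>
          ∃ h : I ∈ nonZeroDivisors (Ideal (𝓞 K)), ClassGroup.mk0 ⟨I, h⟩ = C)} := by
      refine Nat.card_congr ⟨fun I => ⟨I.1.1, ?_⟩, fun I => ⟨⟨I.1, ?_⟩, ?_⟩, ?_, ?_⟩
      · rw [Finset.mem_filter]
        exact ⟨mem_U.mpr I.2.1, I.1.2, I.2.2⟩
      · exact (Finset.mem_filter.1 I.2).2.choose
      · exact ⟨mem_U.mp (Finset.mem_filter.1 I.2).1, (Finset.mem_filter.1 I.2).2.choose_spec⟩
      · intro I; rfl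
      · intro I; rfl
    rw [hcard, Nat.card_eq_fintype_card, Fintype.card_coe]
  refine ⟨?_, ?_⟩
  · have h := ineq_classes hN3 h4 hKF h5b K D hD h2 hK e ι A w hw
    rw [Finset.sum_congr rfl (fun C _ => by rw [hMC C])] at h
    exact h.trans (mul_le_mul_of_nonneg_left hdouble hc)
  · rw [Finset.sum_congr rfl (fun C _ => (hMC C).symm)]
    rw [Finset.sum_fiberwise Finset.univ (fun i => ClassGroup.mk0 (A i)) w]
    have h := sum_sig S V (fun s _ => f s)
    change ∑ i : (Σ s : {s // s ∈ S}, {A // A ∈ V s}), f i.1 = MD D S f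
    rw [h]
    unfold MD
    refine Finset.sum_congr rfl fun s hs => ?_
    rw [Finset.sum_const, nsmul_eq_mul, mul_comm]
    congr 1
    have h1 := hN1 K D hD h2 hK s (hf s hs).2
    have h3 : ((V s).card : ℤ) = ∏ p ∈ s, (1 + chi D p) := by
      rw [← h1, ← card_U]
    have h4 : (((V s).card : ℤ) : ℝ) = ((∏ p ∈ s, (1 + chi D p) : ℤ) : ℝ) := by rw [h3]
    push_cast at h4
    exact h4

end Pool.Agent.H38R2.CG3
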