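import Mathlib

/-!
# Covering of the (narrow) Arakelov class group by products of few small primes: definitions
-/

set_option autoImplicit false

namespace Pool.Agent.H38R2.CG3

open Finset Filter NumberField
open scoped Classical

/-- Every point of the narrow Arakelov class group of the real quadratic field `K` is at distance
at most `c` from a product of at most `n` prime ideals of norm at most `B`: for every nonzero ideal
`A` and every real `t` there are such prime ideals whose product is `α A` with `α` totally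
positive and `log (σ α / τ α)` within `c` of `t` (`σ`, `τ` the two real embeddings). -/
def AraCov (K : Type) [Field K] [NumberField K] (B n c : ℝ) : Prop :=
  ∀ σ τ : K →+* ℝ, σ ≠ τ → ∀ A : Ideal (𝓞 K), A ≠ ⊥ → ∀ t : ℝ,
    ∃ (L : Multiset (Ideal (𝓞 K))) (α : K),
      (∀ P ∈ L, P.IsPrime ∧ P ≠ ⊥ ∧ (Ideal.absNorm P : ℝ) ≤ B) ∧ (L.card : ℝ) ≤ n ∧
      0 < σ α ∧ 0 < τ α ∧
      ((L.prod : Ideal (𝓞 K)) : FractionalIdeal (nonZeroDivisors (𝓞 K)) K) =
        FractionalIdeal.spanSingleton (nonZeroDivisors (𝓞 K)) α *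
          (A : FractionalIdeal (nonZeroDivisors (𝓞 K)) K) ∧
      |Real.log (σ α / τ α) - t| ≤ c

/-- The covering property for the field of the square root of `d`. -/
def GoodA (a : ℝ) (d : ℕ) : Prop :=
  ∀ (K : Type) [Field K] [NumberField K], Module.finrank ℚ K = 2 →
    (∃ x : K, x ^ 2 = (d : K)) →
    AraCov K ((Real.log d) ^ a) (Real.log d / Real.log (Real.log d)) 2

/-- 100% of the squarefree integers. -/
def FinalA : Prop := ∀ a : ℝ, 2 < a →
  Tendsto (fun X : ℕ =>
    (((Finset.Icc 2 X).filter (fun d => Squarefree d ∧ ¬ GoodA a d)).card : ℝ) / X)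
    atTop (nhds 0)

/-- 100% of the primes. -/
def FinalAP : Prop := ∀ a : ℝ, 2 < a →
  Tendsto (fun X : ℕ =>
    (((Finset.Icc 2 X).filter (fun p => p.Prime ∧ ¬ GoodA a p)).card : ℝ) /
      (((Finset.Icc 2 X).filter Nat.Prime).card : ℝ))
    atTop (nhds 0)

end Pool.Agent.H38R2.CG3
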