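import Pool.Agent.H38R2.CG.Defs

/-!
# Distribution of products of small primes in the class group: definitions
-/

set_option autoImplicit false

namespace Pool.Agent.H38R2.CG3

open Finset Filter NumberField Pool.Agent.H38R2.CG
open scoped Classical

/-- Number of the ideals of the ring of integers of `K` that have class `C` and whose norm is a
product of `k` distinct primes of the interval (y, 2y]. -/
noncomputable def cnt (K : Type) [Field K] [NumberField K] (y k : ℕ)
    (C : ClassGroup (𝓞 K)) : ℕ :=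
  ∑ s ∈ (PP y).powersetCard k, Nat.card {I : nonZeroDivisors (Ideal (𝓞 K)) //
    Ideal.absNorm (I : Ideal (𝓞 K)) = prodS s ∧ ClassGroup.mk0 I = C}

/-- These ideals exist, and the mean square deviation of their distribution among the `h` ideal
classes from the uniform distribution is at most `ε` times the square of the mean `1 / h`. -/
def Equi (K : Type) [Field K] [NumberField K] (y k : ℕ) (ε : ℝ) : Prop :=
  0 < ∑ C : ClassGroup (𝓞 K), cnt K y k C ∧
  (∑ C : ClassGroup (𝓞 K), ((cnt K y k C : ℝ) / ((∑ C' : ClassGroup (𝓞 K), cnt K y k C' : ℕ) : ℝ) -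
    1 / Nat.card (ClassGroup (𝓞 K))) ^ 2) / Nat.card (ClassGroup (𝓞 K)) ≤
      ε * (1 / Nat.card (ClassGroup (𝓞 K))) ^ 2

/-- Every ideal class is a product of at most `n` classes of prime ideals of norm at most `B`. -/
def GenBy (K : Type) [Field K] [NumberField K] (B n : ℝ) : Prop :=
  ∀ C : ClassGroup (𝓞 K), ∃ L : Multiset (nonZeroDivisors (Ideal (𝓞 K))),
    (∀ P ∈ L, (P : Ideal (𝓞 K)).IsPrime ∧ (Ideal.absNorm (P : Ideal (𝓞 K)) : ℝ) ≤ B) ∧
    (L.card : ℝ) ≤ n ∧ (L.map (fun P => ClassGroup.mk0 P)).prod = C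

/-- The property of the final theorem, for the field of the square root of `d`. -/
def GoodE (a ε : ℝ) (d : ℕ) : Prop :=
  ∀ (K : Type) [Field K] [NumberField K], Module.finrank ℚ K = 2 →
    (∃ x : K, x ^ 2 = (d : K)) →
    (∃ y k : ℕ, 2 * (y : ℝ) ≤ (Real.log d) ^ a ∧
      2 * (k : ℝ) ≤ Real.log d / Real.log (Real.log d) ∧ Equi K y k ε) ∧
    GenBy K ((Real.log d) ^ a) (Real.log d / Real.log (Real.log d))

/-- 100% of the squarefree integers. -/
def FinalE : Prop := ∀ a ε : ℝ, 2 < a → 0 < ε →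
  Tendsto (fun X : ℕ =>
    (((Finset.Icc 2 X).filter (fun d => Squarefree d ∧ ¬ GoodE a ε d)).card : ℝ) / X)
    atTop (nhds 0)

/-- 100% of the primes. -/
def FinalEP : Prop := ∀ a ε : ℝ, 2 < a → 0 < ε →
  Tendsto (fun X : ℕ =>
    (((Finset.Icc 2 X).filter (fun p => p.Prime ∧ ¬ GoodE a ε p)).card : ℝ) /
      (((Finset.Icc 2 X).filter Nat.Prime).card : ℝ))
    atTop (nhds 0)

end Pool.Agent.H38R2.CG3
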